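import Pool.Agent.R790.Ori.All

/-! Every orbit graph of primitive origamis in `H(2)` with `n ≥ 4` squares, other than the
graph of the B-orbit for `n = 5`, contains a `3`-local `K_{3,3}` minor. -/

set_option autoImplicit false

namespace Pool.Agent.Results.MP_7a6c3d_gt.LocalKuratowski

open Pool.Agent.R790.Ori

/-- For every even `n ≥ 4` some primitive `n`-square origami in `H(2)`, for every odd `n ≥ 5` some
one with monodromy group `Sym(n)`, and for every odd `n ≥ 7` some one with monodromy group
`Alt(n)`, has an orbit graph which contains a `3`-local `K_{3,3}` minor. By the known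
classification of the orbits (`Classification`) these are all the orbit graphs with `n ≥ 4` other
than the one of the B-orbit for `n = 5`. -/
theorem result :
    (∀ n : ℕ, 4 ≤ n → Even n →
      ∃ p : Pr n, PrimH2 p ∧ LocalMinor K33 3 (orbitGraph (cls p))) ∧
    (∀ n : ℕ, 5 ≤ n → Odd n →
      ∃ p : Pr n, PrimH2 p ∧ mon p = ⊤ ∧ LocalMinor K33 3 (orbitGraph (cls p))) ∧
    (∀ n : ℕ, 7 ≤ n → Odd n →
      ∃ p : Pr n, PrimH2 p ∧ mon p = alternatingGroup (Fin n) ∧
        LocalMinor K33 3 (orbitGraph (cls p))) ∧
    (∀ n : ℕ, 4 ≤ n → Classification n → ∀ p : Pr n, PrimH2 p →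
      ¬ (n = 5 ∧ mon p = alternatingGroup (Fin n)) →
        LocalMinor K33 3 (orbitGraph (cls p))) :=
  ⟨even_case, oddA_case, oddB_case, all_case⟩

end Pool.Agent.Results.MP_7a6c3d_gt.LocalKuratowski
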